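import Pool.Agent.Y748.DP.Top

/-!
# The only determinantal law for the zeta zeros is the one of the conjecture

No hypothesis is assumed.  `N T α β` is the counting function of the problem.

A stationary determinantal point process of the line has a kernel `K(x - y)`,
`K(u) = ∫ φ(ξ) exp(2πiξu) dξ`, with a spectral density `0 ≤ φ ≤ 1`; its density is `∫ φ`, and the
pair correlation function of the superposition of independent processes of this kind with spectral
densities `φ_1, …, φ_n` of total density `1` is `R2 φ u = 1 - ∑ |K_i(u)|²`.  (Poisson processes are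
limits `n → ∞`; independent thinnings and rescalings of determinantal processes are included.)  For
`n = 1` and `φ` the indicator of `[-1/2, 1/2]` it is the function `F` of the conjecture.

The theorem: if, for some heights tending to infinity, the pair correlation of the zeros is
asymptotically of this form, with any `n` and any `φ` which may even vary with the height, then it
is asymptotically the one of the conjecture, `R2 φ` tends to `F` uniformly, one of the `n`
components asymptotically carries all the points, and the zeros off the critical line have density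
zero.  So the conjecture holds if and only if the pair correlation of the zeros is asymptotically of
determinantal type, and no other determinantal law can be the limit along any sequence of heights.
-/

open MeasureTheory Filter Topology

namespace Pool.Agent.Results.MP_8958e8_nt.DeterminantalOnly

/-- the nontrivial zeros of `ζ` with ordinate in `[0, T]` -/
def Zeros (T : ℝ) : Set ℂ :=
  {s : ℂ | riemannZeta s = 0 ∧ 0 < s.re ∧ s.re < 1 ∧ 0 ≤ s.im ∧ s.im ≤ T}

/-- `N(T; α, β)` as in the problem: the number of ordered pairs of ordinates of nontrivial zeros in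
`[0, T]`, counted with multiplicity, with `(γ₁ - γ₂) (log T) / 2π ∈ [α, β]` -/
noncomputable def N (T α β : ℝ) : ℕ :=
  ∑ᶠ p ∈ {p : ℂ × ℂ | p.1 ∈ Zeros T ∧ p.2 ∈ Zeros T ∧
    (p.1.im - p.2.im) * Real.log T / (2 * Real.pi) ∈ Set.Icc α β},
    analyticOrderNatAt riemannZeta p.1 * analyticOrderNatAt riemannZeta p.2

/-- the number of zeros off the critical line with ordinate in `[0, T]`, counted with
multiplicity -/
noncomputable def Noff (T : ℝ) : ℕ :=
  ∑ᶠ s ∈ {s : ℂ | s ∈ Zeros T ∧ s.re ≠ 1 / 2}, analyticOrderNatAt riemannZeta s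

/-- the pair correlation function of the problem -/
noncomputable def F (u : ℝ) : ℝ := 1 - (Real.sin (Real.pi * u) / (Real.pi * u)) ^ 2

/-- `(T log T) / 2π` -/
noncomputable def D (T : ℝ) : ℝ := T * Real.log T / (2 * Real.pi)

/-- the conjecture: for all `0 < α < β` the ratio of the two sides tends to `1` -/
def Q1 : Prop := ∀ α β : ℝ, 0 < α → α < β →
  Tendsto (fun T : ℝ => (N T α β : ℝ) / (D T * ∫ u in α..β, F u)) atTop (𝓝 1)

/-- `φ_1, …, φ_n` are spectral densities of determinantal processes (the operators with the kernels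
`K_i(x - y)` satisfy `0 ≤ K_i ≤ 1`) and the total density is `1` -/
def Spectral {n : ℕ} (φ : Fin n → ℝ → ℝ) : Prop :=
  (∀ i, Measurable (φ i) ∧ Integrable (φ i) ∧ ∀ ξ, 0 ≤ φ i ξ ∧ φ i ξ ≤ 1) ∧
    ∑ i, ∫ ξ, φ i ξ = 1

/-- the kernel with spectral density `φ` -/
noncomputable def K (φ : ℝ → ℝ) (u : ℝ) : ℂ :=
  ∫ ξ, (φ ξ : ℂ) * Complex.exp (2 * Real.pi * Complex.I * ξ * u)

/-- the pair correlation function of the superposition -/
noncomputable def R2 {n : ℕ} (φ : Fin n → ℝ → ℝ) (u : ℝ) : ℝ := 1 - ∑ i, ‖K (φ i) u‖ ^ 2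

/-- along `l`, the pair correlation of the zeros up to height `T j` is asymptotically that of the
superposition with the spectral densities `φ j` -/
def Follows {ι : Type} (l : Filter ι) (T : ι → ℝ) {n : ι → ℕ} (φ : ∀ j, Fin (n j) → ℝ → ℝ) : Prop :=
  ∀ α β : ℝ, 0 < α → α < β →
    Tendsto (fun j => (N (T j) α β : ℝ) / D (T j) - ∫ u in α..β, R2 (φ j) u) l (𝓝 0)

open Pool.Agent.Y748.DP Pool.Agent.Y749.Rig in
lemma fam_of {n : ℕ} {φ : Fin n → ℝ → ℝ} (h : Spectral φ) : Fam n φ :=
  ⟨fun i => ⟨(h.1 i).1, fun ξ => ((h.1 i).2.2 ξ).1, fun ξ => ((h.1 i).2.2 ξ).2, (h.1 i).2.1⟩, h.2⟩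

open Pool.Agent.Y748.DP Pool.Agent.Y749.Rig in
lemma win_of {ι : Type} {l : Filter ι} {T : ι → ℝ} (hT : Tendsto T l atTop) {n : ι → ℕ}
    {φ : ∀ j, Fin (n j) → ℝ → ℝ} (h : Follows l T φ) (α β : ℝ) (hα : 0 < α) (hαβ : α < β) :
    Tendsto (fun j => (Mp (T j)).real (Set.Icc α β) - ∫ u in α..β, (1 - YY (φ j) u)) l (𝓝 0) := by
  refine (h α β hα hαβ).congr' ?_
  filter_upwards [hT.eventually (eventually_ge_atTop 10)] with j hj
  have e : (N (T j) α β : ℝ) / D (T j) = (Mp (T j)).real (Set.Icc α β) := nw_Mp hj α β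
  rw [e]
  rfl

/-- **Main theorem.** -/
theorem result :
    (∀ (ι : Type) (l : Filter ι) (T : ι → ℝ), Tendsto T l atTop →
      ∀ (n : ι → ℕ) (φ : ∀ j, Fin (n j) → ℝ → ℝ), (∀ j, Spectral (φ j)) → Follows l T φ →
        (∀ α β : ℝ, 0 < α → α < β →
          Tendsto (fun j => (N (T j) α β : ℝ) / (D (T j) * ∫ u in α..β, F u)) l (𝓝 1)) ∧
        Tendsto (fun j => (Noff (T j) : ℝ) / D (T j)) l (𝓝 0) ∧
        (∀ ε : ℝ, 0 < ε → ∀ᶠ j in l, (∀ u : ℝ, u ≠ 0 → |R2 (φ j) u - F u| ≤ ε) ∧
          ∃ i, 1 - ε ≤ ∫ ξ, φ j i ξ)) ∧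
    (Q1 ↔ ∃ (n : ℝ → ℕ) (φ : ∀ T, Fin (n T) → ℝ → ℝ), (∀ T, Spectral (φ T)) ∧
      Follows atTop (fun T => T) φ) := by
  have main : ∀ (ι : Type) (l : Filter ι) (T : ι → ℝ), Tendsto T l atTop →
      ∀ (n : ι → ℕ) (φ : ∀ j, Fin (n j) → ℝ → ℝ), (∀ j, Spectral (φ j)) → Follows l T φ →
        (∀ α β : ℝ, 0 < α → α < β →
          Tendsto (fun j => (N (T j) α β : ℝ) / (D (T j) * ∫ u in α..β, F u)) l (𝓝 1)) ∧
        Tendsto (fun j => (Noff (T j) : ℝ) / D (T j)) l (𝓝 0) ∧
        (∀ ε : ℝ, 0 < ε → ∀ᶠ j in l, (∀ u : ℝ, u ≠ 0 → |R2 (φ j) u - F u| ≤ ε) ∧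
          ∃ i, 1 - ε ≤ ∫ ξ, φ j i ξ) := by
    intro ι l T hT n φ hφ hF
    have hfam : ∀ j, Pool.Agent.Y748.DP.Fam (n j) (φ j) := fun j => fam_of (hφ j)
    have hw := win_of hT hF
    refine ⟨fun α β hα hαβ => ?_, ?_, fun ε hε => ?_⟩
    · have h1 := Pool.Agent.Y748.DP.windows hT hfam hw hα hαβ
      have hI : (0 : ℝ) < ∫ u in α..β, F u := Pool.Agent.Y749.Rig.FF_int_pos hα hαβ
      have h2 := h1.div_const (∫ u in α..β, F u)
      have e0 : (∫ u in α..β, Pool.Agent.Y749.Rig.FF u) = ∫ u in α..β, F u := rfl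
      rw [e0, div_self hI.ne'] at h2
      refine h2.congr' ?_
      filter_upwards [hT.eventually (eventually_ge_atTop 10)] with j hj
      have e : (N (T j) α β : ℝ) / D (T j) =
        (Pool.Agent.Y749.Rig.Mp (T j)).real (Set.Icc α β) := Pool.Agent.Y749.Rig.nw_Mp hj α β
      rw [← e, div_div]
    · rw [Metric.tendsto_nhds]
      intro ε hε
      filter_upwards [Pool.Agent.Y748.DP.top hT hfam hw (δ := ε / 2) (by positivity),
        hT.eventually (eventually_ge_atTop 10)] with j hj hj2
      have hD : 0 < D (T j) := Pool.Agent.Y749.Rig.nT_pos hj2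
      have e : (Noff (T j) : ℝ) = Pool.Agent.Y749.Rig.NF (T j) :=
        Pool.Agent.Y749.Rig.noff_NF (T j)
      rw [Real.dist_eq, sub_zero, abs_of_nonneg (by positivity), e]
      have h1 := hj.2.1
      have h2 : Pool.Agent.Y749.Rig.NF (T j) / D (T j) ≤ ε / 2 := h1
      linarith
    · filter_upwards [Pool.Agent.Y748.DP.top hT hfam hw hε] with j hj
      refine ⟨fun u hu => ?_, ?_⟩
      · have h1 := hj.1 u hu
        have e : R2 (φ j) u - F u = -(Pool.Agent.Y748.DP.YY (φ j) u -
            (Real.sin (Real.pi * u) / (Real.pi * u)) ^ 2) := by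
          unfold R2 F
          have : Pool.Agent.Y748.DP.YY (φ j) u = ∑ i, ‖K (φ j i) u‖ ^ 2 := rfl
          rw [this]; ring
        rw [e, abs_neg]
        exact h1
      · by_contra hcon
        push Not at hcon
        have h1 := hj.2.2
        have h2 : ∑ i, (∫ ξ, φ j i ξ) ^ 2 ≤ ∑ i, (1 - ε) * ∫ ξ, φ j i ξ := by
          refine Finset.sum_le_sum fun i _ => ?_
          have h3 := ((hfam j).sp i).tot_nonneg
          have h4 := hcon i
          nlinarith
        rw [← Finset.mul_sum, (hφ j).2, mul_one] at h2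
        have h3 : ∑ i, (∫ ξ, φ j i ξ) ^ 2 < 1 - ε := by
          have hne : (Finset.univ : Finset (Fin (n j))).Nonempty := by
            by_contra hc
            rw [Finset.not_nonempty_iff_eq_empty] at hc
            have := (hφ j).2
            rw [hc, Finset.sum_empty] at this
            norm_num at this
          obtain ⟨i0, hi0⟩ : ∃ i, 0 < ∫ ξ, φ j i ξ := by
            by_contra hc
            push Not at hc
            have h5 : ∑ i, ∫ ξ, φ j i ξ ≤ 0 := Finset.sum_nonpos fun i _ => hc i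
            rw [(hφ j).2] at h5
            norm_num at h5
          have h6 : ∑ i, (∫ ξ, φ j i ξ) ^ 2 < ∑ i, (1 - ε) * ∫ ξ, φ j i ξ := by
            refine Finset.sum_lt_sum (fun i _ => ?_) ⟨i0, Finset.mem_univ _, ?_⟩
            · have h3 := ((hfam j).sp i).tot_nonneg
              have h4 := hcon i
              nlinarith
            · have h4 := hcon i0
              nlinarith
          rwa [← Finset.mul_sum, (hφ j).2, mul_one] at h6
        linarith
  refine ⟨main, ?_, ?_⟩
  · intro h
    refine ⟨fun _ => 1, fun _ _ => (Set.Icc (-(1 / 2) : ℝ) (1 / 2)).indicator fun _ => 1,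
      fun _ => ?_, ?_⟩
    · have hs := Pool.Agent.Y748.DP.sine_fam
      exact ⟨fun i => ⟨(hs.sp i).meas, (hs.sp i).int, fun ξ =>
        ⟨(hs.sp i).nonneg ξ, (hs.sp i).le_one ξ⟩⟩, hs.tot⟩
    · intro α β hα hαβ
      have hI : (0 : ℝ) < ∫ u in α..β, F u := Pool.Agent.Y749.Rig.FF_int_pos hα hαβ
      have h1 := (h α β hα hαβ).mul_const (∫ u in α..β, F u)
      rw [one_mul] at h1
      have h2 : Tendsto (fun T : ℝ => (N T α β : ℝ) / D T) atTop (𝓝 (∫ u in α..β, F u)) := by
        refine h1.congr fun T => ?_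
        rw [div_mul_eq_mul_div, mul_div_mul_right _ _ hI.ne']
      have h3 := h2.sub_const (∫ u in α..β, F u)
      rw [sub_self] at h3
      refine h3.congr fun T => ?_
      congr 1
      refine intervalIntegral.integral_congr fun u hu => ?_
      rw [Set.uIcc_of_le hαβ.le] at hu
      have hu0 : u ≠ 0 := by linarith [hu.1]
      have h4 := Pool.Agent.Y748.DP.sine_YY hu0
      show F u = R2 (fun _ : Fin 1 => (Set.Icc (-(1 / 2) : ℝ) (1 / 2)).indicator fun _ => 1) u
      unfold R2 F
      rw [← h4]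
      rfl
  · rintro ⟨n, φ, hφ, hF⟩
    exact (main ℝ atTop (fun T => T) tendsto_id n φ hφ hF).1

end Pool.Agent.Results.MP_8958e8_nt.DeterminantalOnly
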