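import Pool.Agent.Y749.Rig.Gap

/-!
# Montgomery's pair correlation conjecture is determined on sparse distant intervals

No hypothesis is assumed.  `N T α β` is the counting function of the problem.  Let `[a n, b n]` be
intervals of positive reals with disjoint interiors whose lengths tend to infinity and such that
`∑ ((b n - a n) / b n)²` diverges (for instance `b n = (1 + δ) a n` with `a n` tending to infinity
arbitrarily fast).  Let `l₁, l₂` be two incommensurable lengths.  The conjecture `Q1` holds if and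
only if

* the zeros off the critical line are of density zero (`OnLine`), and
* the asymptotic formula of the conjecture holds, up to an error that is exponentially small in
  `α`, for the windows `[α, α + l₁]` and `[α, α + l₂]` that lie in one of the intervals `[a n, b n]`
  (`OnIntervals`).

The condition on the intervals is the one of Beurling's gap theorem.
-/

open MeasureTheory Filter Topology

namespace Pool.Agent.Results.MP_8958e8_nt.DistantIntervals

/-- the nontrivial zeros of `ζ` with ordinate in `[0, T]` -/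
def Zeros (T : ℝ) : Set ℂ :=
  {s : ℂ | riemannZeta s = 0 ∧ 0 < s.re ∧ s.re < 1 ∧ 0 ≤ s.im ∧ s.im ≤ T}

/-- `N(T; α, β)` as in the problem: the number of ordered pairs of ordinates of nontrivial zeros in
`[0, T]`, counted with multiplicity, with `(γ₁ - γ₂) (log T) / 2π ∈ [α, β]` -/
noncomputable def N (T α β : ℝ) : ℕ :=
  ∑ᶠ p ∈ {p : ℂ × ℂ | p.1 ∈ Zeros T ∧ p.2 ∈ Zeros T ∧
    (p.1.im - p.2.im) * Real.log T / (2 * Real.pi) ∈ Set.Icc α β},
    analyticOrderNatAt riemannZeta p.1 * analyticOrderNatAt riemannZeta p.2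

/-- the number of zeros off the critical line with ordinate in `[0, T]`, counted with
multiplicity -/
noncomputable def Noff (T : ℝ) : ℕ :=
  ∑ᶠ s ∈ {s : ℂ | s ∈ Zeros T ∧ s.re ≠ 1 / 2}, analyticOrderNatAt riemannZeta s

/-- the pair correlation function of the problem -/
noncomputable def F (u : ℝ) : ℝ := 1 - (Real.sin (Real.pi * u) / (Real.pi * u)) ^ 2

/-- `(T log T) / 2π` -/
noncomputable def D (T : ℝ) : ℝ := T * Real.log T / (2 * Real.pi)

/-- the conjecture: for all `0 < α < β` the ratio of the two sides tends to `1` -/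
def Q1 : Prop := ∀ α β : ℝ, 0 < α → α < β →
  Tendsto (fun T : ℝ => (N T α β : ℝ) / (D T * ∫ u in α..β, F u)) atTop (𝓝 1)

/-- the zeros off the critical line have density zero -/
def OnLine : Prop := Tendsto (fun T : ℝ => (Noff T : ℝ) / D T) atTop (𝓝 0)

/-- the asymptotic formula, up to an exponentially small error, for the windows of length `l` in
the intervals `[a n, b n]` -/
def OnIntervals (a b : ℕ → ℝ) (l : ℝ) : Prop := ∃ C c : ℝ, 0 < c ∧ ∀ n : ℕ, ∀ α : ℝ, a n ≤ α →
  α + l ≤ b n → ∀ ε : ℝ, 0 < ε → ∀ᶠ T : ℝ in atTop,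
    |(N T α (α + l) : ℝ) / D T - ∫ u in α..(α + l), F u| ≤ C * Real.exp (-(c * α)) + ε

/-- the sets of pairs that are counted are finite -/
theorem pairs_finite (T α β : ℝ) : {p : ℂ × ℂ | p.1 ∈ Zeros T ∧ p.2 ∈ Zeros T ∧
    (p.1.im - p.2.im) * Real.log T / (2 * Real.pi) ∈ Set.Icc α β}.Finite :=
  Pool.Agent.Y749.Rig.PW_finite T α β

/-- **Main theorem.** -/
theorem result (l₁ l₂ : ℝ) (h₁ : 0 < l₁) (h₂ : 0 < l₂) (hir : Irrational (l₁ / l₂))
    (a b : ℕ → ℝ) (ha : ∀ n, 0 < a n) (hlen : Tendsto (fun n => b n - a n) atTop atTop)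
    (hdis : ∀ j k, j ≠ k → Disjoint (Set.Ioo (a j) (b j)) (Set.Ioo (a k) (b k)))
    (hsum : ¬ Summable fun n => ((b n - a n) / b n) ^ 2) :
    Q1 ↔ (OnLine ∧ OnIntervals a b l₁ ∧ OnIntervals a b l₂) := by
  have hq : Q1 ↔ Pool.Agent.Y749.Rig.QQ := Pool.Agent.Y749.Rig.ratio_iff
  rw [hq]
  exact Pool.Agent.Y749.Rig.gap_thm h₁ h₂ hir ha hlen hdis hsum

end Pool.Agent.Results.MP_8958e8_nt.DistantIntervals
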