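import Pool.Agent.Y749.Rig.Stm1

/-!
# Montgomery's pair correlation conjecture is a one-sided statement about distant zeros

No hypothesis is assumed.  `N T α β` is the counting function of the problem.  The conjecture `Q1`
holds if and only if

* the zeros off the critical line are of density zero (`OnLine`), and
* for two incommensurable lengths `l` (for instance `1` and `√2`), and only for windows
  `[α, α + l]` beyond some distance `A`, the counting function satisfies ONE of the two one-sided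
  asymptotic bounds, up to an error that is exponentially small in `α`:
  `limsup N(T; α, α + l) / (T log T / 2π) ≤ ∫_α^(α + l) F + C exp (-c α)`   (`FarUpper`), or
  `liminf N(T; α, α + l) / (T log T / 2π) ≥ ∫_α^(α + l) F - C exp (-c α)`   (`FarLower`).
-/

open MeasureTheory Filter Topology

namespace Pool.Agent.Results.MP_8958e8_nt.OneSidedFarWindows

/-- the nontrivial zeros of `ζ` with ordinate in `[0, T]` -/
def Zeros (T : ℝ) : Set ℂ :=
  {s : ℂ | riemannZeta s = 0 ∧ 0 < s.re ∧ s.re < 1 ∧ 0 ≤ s.im ∧ s.im ≤ T}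

/-- `N(T; α, β)` as in the problem: the number of ordered pairs of ordinates of nontrivial zeros in
`[0, T]`, counted with multiplicity, with `(γ₁ - γ₂) (log T) / 2π ∈ [α, β]` -/
noncomputable def N (T α β : ℝ) : ℕ :=
  ∑ᶠ p ∈ {p : ℂ × ℂ | p.1 ∈ Zeros T ∧ p.2 ∈ Zeros T ∧
    (p.1.im - p.2.im) * Real.log T / (2 * Real.pi) ∈ Set.Icc α β},
    analyticOrderNatAt riemannZeta p.1 * analyticOrderNatAt riemannZeta p.2

/-- the number of zeros off the critical line with ordinate in `[0, T]`, counted with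
multiplicity -/
noncomputable def Noff (T : ℝ) : ℕ :=
  ∑ᶠ s ∈ {s : ℂ | s ∈ Zeros T ∧ s.re ≠ 1 / 2}, analyticOrderNatAt riemannZeta s

/-- the pair correlation function of the problem -/
noncomputable def F (u : ℝ) : ℝ := 1 - (Real.sin (Real.pi * u) / (Real.pi * u)) ^ 2

/-- `(T log T) / 2π` -/
noncomputable def D (T : ℝ) : ℝ := T * Real.log T / (2 * Real.pi)

/-- the conjecture: for all `0 < α < β` the ratio of the two sides tends to `1` -/
def Q1 : Prop := ∀ α β : ℝ, 0 < α → α < β →
  Tendsto (fun T : ℝ => (N T α β : ℝ) / (D T * ∫ u in α..β, F u)) atTop (𝓝 1)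

/-- the zeros off the critical line have density zero -/
def OnLine : Prop := Tendsto (fun T : ℝ => (Noff T : ℝ) / D T) atTop (𝓝 0)

/-- the one-sided bound from above for distant windows of length `l` -/
def FarUpper (l : ℝ) : Prop := ∃ A C c : ℝ, 0 < c ∧ ∀ α : ℝ, A < α → 0 < α → ∀ ε : ℝ, 0 < ε →
  ∀ᶠ T : ℝ in atTop,
    (N T α (α + l) : ℝ) / D T ≤ (∫ u in α..(α + l), F u) + C * Real.exp (-(c * α)) + ε

/-- the one-sided bound from below for distant windows of length `l` -/
def FarLower (l : ℝ) : Prop := ∃ A C c : ℝ, 0 < c ∧ ∀ α : ℝ, A < α → 0 < α → ∀ ε : ℝ, 0 < ε →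
  ∀ᶠ T : ℝ in atTop,
    (∫ u in α..(α + l), F u) - C * Real.exp (-(c * α)) - ε ≤ (N T α (α + l) : ℝ) / D T

/-- the sets of pairs that are counted are finite -/
theorem pairs_finite (T α β : ℝ) : {p : ℂ × ℂ | p.1 ∈ Zeros T ∧ p.2 ∈ Zeros T ∧
    (p.1.im - p.2.im) * Real.log T / (2 * Real.pi) ∈ Set.Icc α β}.Finite :=
  Pool.Agent.Y749.Rig.PW_finite T α β

/-- **Main theorem.** -/
theorem result (l₁ l₂ : ℝ) (h₁ : 0 < l₁) (h₂ : 0 < l₂) (hir : Irrational (l₁ / l₂)) :
    Q1 ↔ (OnLine ∧ (FarUpper l₁ ∨ FarLower l₁) ∧ (FarUpper l₂ ∨ FarLower l₂)) := by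
  have hq : Q1 ↔ Pool.Agent.Y749.Rig.QQ := Pool.Agent.Y749.Rig.ratio_iff
  rw [hq]
  exact Pool.Agent.Y749.Rig.one_sided h₁ h₂ hir

end Pool.Agent.Results.MP_8958e8_nt.OneSidedFarWindows
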