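import Pool.Agent.Y796.PA.Main
import Pool.Agent.H370R2.DirGood
set_option autoImplicit false

/-!
# Pairs of ordinates in explicit windows, in almost all short intervals, unconditionally

No hypothesis is assumed.  Let `L(s, χ)` be the L-function of a primitive Dirichlet character
(modulus `1`: the Riemann zeta function) and let `0 < η < 1`.  The lower bounds below for the number
of pairs of ordinates in `(t, t + H]` whose difference lies between `α` and `β` times the mean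
spacing hold for all `T` large, all `T ^ η ≤ H ≤ T / 8` and all `t ∈ [T, 2T]` outside a set of
measure at most `T ^ (1 - δ)`.

* near windows: at least `(∑_{α/r ≤ k ≤ β p(h,r)} (p h r - k / β) - ε) * (H / 2π) log T`
  pairs, with `h = (1 + η) / 2` (in every interval of this length only `h = η` is known);
* a positive proportion of pairs if `c h < 2`, in particular for every `η ≥ 1 / 8`;
* all windows `[α, α + 2 r]`, `h r ≤ 9 / 10`, at arbitrary distance `α` up to a small multiple of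
  `H log T`, simultaneously: at least `(2 (2 - c h) - 1 / r - ε) (H / 2π) log T` pairs;
* every window of length more than `1 / (2 - c h)` contains `≫ H log T` pairs if
  `c h + 5 h / 9 < 2`, in particular every window of length `12 / 5` if `η ≥ 1 / 2`; the length can
  be reduced to `1.3995 / h` for `h` close to `1`.
-/

open Filter Topology Complex MeasureTheory

namespace Pool.Agent.Results.MP_8958e8_nt.PairsAlmostAllIntervals

/-- the nontrivial zeros of `L(s, χ)` with ordinate in `(T₁, T₂]` -/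
def zeros {q : ℕ} [NeZero q] (χ : DirichletCharacter ℂ q) (T₁ T₂ : ℝ) : Set ℂ :=
  {s : ℂ | DirichletCharacter.LFunction χ s = 0 ∧ 0 < s.re ∧ s.re < 1 ∧ T₁ < s.im ∧ s.im ≤ T₂}

/-- the multiplicity of a zero -/
noncomputable def mult {q : ℕ} [NeZero q] (χ : DirichletCharacter ℂ q) (s : ℂ) : ℕ :=
  analyticOrderNatAt (DirichletCharacter.LFunction χ) s

/-- the number of ordered pairs of zeros in `zeros χ T₁ T₂`, counted with multiplicity, with
difference of the ordinates times `log T / 2π` in `[α, β]` -/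
noncomputable def N {q : ℕ} [NeZero q] (χ : DirichletCharacter ℂ q) (T T₁ T₂ α β : ℝ) : ℕ :=
  ∑ᶠ s ∈ zeros χ T₁ T₂, ∑ᶠ s' ∈ {s' : ℂ | s' ∈ zeros χ T₁ T₂ ∧
    α ≤ (s.im - s'.im) * Real.log T / (2 * Real.pi) ∧
    (s.im - s'.im) * Real.log T / (2 * Real.pi) ≤ β}, mult χ s * mult χ s'

/-- `P T H t` holds in almost all short intervals: for all large `T`, all `T ^ η ≤ H ≤ T / 8` and
all `t ∈ [T, 2T]` outside a set of measure at most `T ^ (1 - δ)`, for some `δ > 0` -/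
def AlmostAll (η : ℝ) (P : ℝ → ℝ → ℝ → Prop) : Prop :=
  ∃ δ : ℝ, 0 < δ ∧ ∃ T₀ : ℝ, ∀ T : ℝ, T₀ ≤ T → ∀ H : ℝ, T ^ η ≤ H → H ≤ T / 8 →
    volume {t : ℝ | t ∈ Set.Icc T (2 * T) ∧ ¬ P T H t} ≤ ENNReal.ofReal (T ^ (1 - δ))

/-- the Montgomery-Taylor kernel at `r` times the mean spacing -/
noncomputable def K (r : ℝ) : ℝ :=
  (∫ t in (-1 / 2 : ℝ)..(1 / 2), Real.cos (Real.sqrt 2 * t) * Real.cos (2 * Real.pi * r * t)) /
    (Real.sqrt 2 * Real.sin (1 / Real.sqrt 2))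

/-- the Montgomery-Taylor constant -/
noncomputable def cMT : ℝ :=
  Real.sqrt 2 * Real.tan (1 / Real.sqrt 2) / (1 + Real.tan (1 / Real.sqrt 2) / Real.sqrt 2)

/-- the mean square of the Montgomery-Taylor window, `1.0061...` -/
noncomputable def R0 : ℝ :=
  (1 + Real.sin (Real.sqrt 2) / Real.sqrt 2) / (4 * Real.sin (1 / Real.sqrt 2) ^ 2)

/-- the constant for the bandwidth `h`; `c 1 = cMT⁻¹ = 1.3274...` -/
noncomputable def c (h : ℝ) : ℝ := R0 / h + h * (cMT⁻¹ - R0)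

/-- the lower bound for the density of the isolated zeros, bandwidth `h` -/
noncomputable def p (h r : ℝ) : ℝ := 1 - (c h - 1) / K (h * r) ^ 2

/-- modulus `1`: the Riemann zeta function -/
theorem zeta_case (χ : DirichletCharacter ℂ 1) :
    χ.IsPrimitive ∧ DirichletCharacter.LFunction χ = riemannZeta := by
  refine ⟨?_, DirichletCharacter.LFunction_modOne_eq⟩
  rw [DirichletCharacter.level_one' χ rfl]
  exact DirichletCharacter.isPrimitive_one_level_one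

theorem zeros_eq {q : ℕ} [NeZero q] (χ : DirichletCharacter ℂ q) (T₁ T₂ : ℝ) :
    zeros χ T₁ T₂ = H370.zset (DirichletCharacter.LFunction χ) T₁ T₂ := by
  ext s
  simp only [zeros, H370.zset, Set.mem_ofPred_eq]
  tauto

/-- the sets of zeros that are summed over are finite -/
theorem zeros_finite {q : ℕ} [NeZero q] (χ : DirichletCharacter ℂ q) (hχ : χ.IsPrimitive)
    (T₁ T₂ : ℝ) (hT : 0 < T₁) : (zeros χ T₁ T₂).Finite := by
  rw [zeros_eq]
  exact H370.zset_finite' (H370.good_dirichlet χ hχ) T₁ T₂ hT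

theorem N_eq {q : ℕ} [NeZero q] (χ : DirichletCharacter ℂ q) (T t H α β : ℝ) :
    N χ T t (t + H) α β =
      Pool.Agent.Y796.PA.NPT (DirichletCharacter.LFunction χ) T t H α β := by
  unfold N Pool.Agent.Y796.PA.NPT mult H370.mult
  rw [zeros_eq]

theorem AlmostAll_eq (η : ℝ) (P : ℝ → ℝ → ℝ → Prop) :
    AlmostAll η P = Pool.Agent.Y796.PA.AA η P := rfl

theorem K_eq (r : ℝ) : K r = H344.KK r := by
  have h := H370.GramAux.kap_re_mul (2 * Real.pi * r)
  have hd := H370.GramAux.den_pos.ne'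
  unfold K H344.KK
  rw [← h, mul_div_cancel_left₀ _ hd]

theorem c_eq {h : ℝ} (hh : 0 < h) : c h = H295Iso.c0 h := by
  have h1 : cMT⁻¹ = H370.cMTinv := H370.cMTinv_eq
  have h2 := H228SI.constS 1 one_pos le_rfl
  have h4 : Real.sqrt 2 / 2 = 1 / Real.sqrt 2 := by
    rw [div_eq_div_iff (by norm_num) (by positivity), Real.mul_self_sqrt (by norm_num), one_mul]
  have h3 : H295SI.RS (Real.sqrt 2) 0 = R0 := by
    unfold H295SI.RS R0
    have hs : Real.sqrt 2 ^ 2 = 2 := Real.sq_sqrt (by norm_num)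
    rw [if_pos (by norm_num), hs, h4]
    simp only [abs_zero, sub_zero, mul_zero, Real.cos_zero, mul_one]
    ring
  have h5 : H295SI.cc 1 = H370.cMTinv := by
    unfold H295SI.cc H370.cMTinv
    rfl
  rw [mul_one, h5] at h2
  unfold c H295Iso.c0 H295SI.cR
  unfold H295SI.cR at h2
  rw [h3] at h2 ⊢
  rw [h1, ← h2]
  ring

theorem p_eq {h : ℝ} (hh : 0 < h) (r : ℝ) : p h r = Pool.Agent.H24R3.PairsShort.pd h r := by
  unfold p Pool.Agent.H24R3.PairsShort.pd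
  rw [c_eq hh, K_eq]

/-- a numerical bound -/
lemma R0_le : R0 ≤ 1.0062 := by
  have hcn := H370.Expl.cMTinv_num
  have hs2 : (0 : ℝ) < Real.sqrt 2 := by positivity
  have hsq : Real.sqrt 2 ^ 2 = 2 := Real.sq_sqrt (by norm_num)
  have hsin := H370.GramAux.sin_half_pos
  set S := Real.sin (1 / Real.sqrt 2) with hS
  set C := Real.cos (1 / Real.sqrt 2) with hC
  have hSC : S ^ 2 + C ^ 2 = 1 := Real.sin_sq_add_cos_sq _
  have hC0 : 0 < C := by
    apply Real.cos_pos_of_mem_Ioo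
    have h1 := H370.GramAux.half_pos
    have h2 := H370.GramAux.half_lt
    constructor <;> linarith [Real.pi_pos]
  have h1 : C / S / Real.sqrt 2 ≤ 0.827503 := by
    unfold H370.cMTinv at hcn
    rw [Real.cot_eq_cos_div_sin, ← hS, ← hC] at hcn
    clear_value S C
    norm_num at hcn ⊢
    linarith
  -- `C ≤ 0.827503 √2 S`
  have h2 : C ≤ 0.827503 * Real.sqrt 2 * S := by
    rw [div_div, div_le_iff₀ (by positivity)] at h1
    linarith
  have h3 : C ^ 2 ≤ 1.369524 * S ^ 2 := by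
    have h4 : C ^ 2 ≤ (0.827503 * Real.sqrt 2 * S) ^ 2 := pow_le_pow_left₀ hC0.le h2 2
    have h5 : (0.827503 * Real.sqrt 2 * S) ^ 2 = 0.827503 ^ 2 * 2 * S ^ 2 := by
      rw [mul_pow, mul_pow, hsq]
    rw [h5] at h4
    refine h4.trans (mul_le_mul_of_nonneg_right (by norm_num) (sq_nonneg S))
  have h4 : 1 ≤ 2.369524 * S ^ 2 := by
    norm_num at h3 ⊢
    linarith
  -- `sin √2 / √2 = √2 S C ≤ 1.655006 S ^ 2`
  have h6 : Real.sin (Real.sqrt 2) = 2 * S * C := by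
    rw [hS, hC, ← Real.sin_two_mul]
    congr 1
    field_simp
    rw [hsq]
  have h7 : Real.sin (Real.sqrt 2) / Real.sqrt 2 ≤ 1.655006 * S ^ 2 := by
    rw [div_le_iff₀ hs2, h6]
    have h8 : 2 * S * C ≤ 2 * S * (0.827503 * Real.sqrt 2 * S) :=
      mul_le_mul_of_nonneg_left h2 (by positivity)
    refine h8.trans (le_of_eq ?_)
    ring
  unfold R0
  rw [← hS, div_le_iff₀ (by positivity)]
  norm_num at h4 h7 ⊢
  linarith

/-- the constants are admissible for `η ≥ 1/8` and for `η ≥ 1/2` -/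
theorem c_num : c (9 / 16) < 2 ∧ c (3 / 4) + 5 / 9 * (3 / 4) < 2 ∧
    1 < 12 / 5 * (2 - c (3 / 4)) := by
  have h1 : cMT⁻¹ = H370.cMTinv := H370.cMTinv_eq
  have hcn := H370.Expl.cMTinv_num
  have h2 := R0_le
  unfold c
  rw [h1]
  norm_num at hcn h2 ⊢
  refine ⟨?_, ?_, ?_⟩ <;> linarith

lemma R0_ge : 1 / 2 ≤ R0 := by
  have hs2 : (0 : ℝ) < Real.sqrt 2 := by positivity
  have hsq : Real.sqrt 2 ^ 2 = 2 := Real.sq_sqrt (by norm_num)
  have hsin := H370.GramAux.sin_half_pos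
  have h1 : Real.sin (1 / Real.sqrt 2) ≤ 1 / Real.sqrt 2 := Real.sin_le (by positivity)
  have h2 : Real.sin (1 / Real.sqrt 2) ^ 2 ≤ (1 / Real.sqrt 2) ^ 2 :=
    pow_le_pow_left₀ hsin.le h1 2
  rw [div_pow, hsq, one_pow] at h2
  have h3 : 0 ≤ Real.sin (Real.sqrt 2) / Real.sqrt 2 := by
    apply div_nonneg _ hs2.le
    apply Real.sin_nonneg_of_nonneg_of_le_pi hs2.le
    have h4 : Real.sqrt 2 ≤ 2 := Real.sqrt_le_iff.mpr ⟨by norm_num, by norm_num⟩
    linarith [Real.pi_gt_three]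
  unfold R0
  rw [le_div_iff₀ (by positivity)]
  linarith

lemma c_lower {h : ℝ} (hh : 0 < h) : 2 - 3 * h < c h := by
  have h1 : cMT⁻¹ = H370.cMTinv := H370.cMTinv_eq
  have h2 := R0_ge
  have h3 := R0_le
  have h4 := H344.cMTinv_ge
  have h5 : 1 / 2 / h ≤ R0 / h := div_le_div_of_nonneg_right h2 hh.le
  have h6 : 0 ≤ h * (cMT⁻¹ - R0) := by
    apply mul_nonneg hh.le
    rw [h1]
    norm_num at h3 h4 ⊢
    linarith
  have h7 : 2 - 3 * h < 1 / 2 / h := by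
    rw [lt_div_iff₀ hh]
    nlinarith [sq_nonneg (3 * h - 1)]
  unfold c
  linarith

/-- The lower bounds for the number of pairs in almost all short intervals. -/
theorem result (q : ℕ) [NeZero q] (χ : DirichletCharacter ℂ q) (hχ : χ.IsPrimitive)
    (η : ℝ) (hη0 : 0 < η) (hη1 : η < 1) :
    -- near windows
    (∀ h r α β ε : ℝ, 0 < h → 2 * h ≤ 1 + η → 0 < r → h * r ≤ 1 / 3 → 0 < α → 0 < β → 0 < ε →
      AlmostAll η fun T H t =>
        (∑ k ∈ Finset.Icc ⌈α / r⌉₊ ⌊β * p h r⌋₊, (p h r - k / β) - ε) *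
          (H / (2 * Real.pi) * Real.log T) ≤ (N χ T t (t + H) α β : ℝ)) ∧
    -- a positive proportion
    (∀ h β : ℝ, 0 < h → 2 * h ≤ 1 + η → c h < 2 → 1 / (2 - c h) < β →
      ∃ α : ℝ, 0 < α ∧ α < β ∧ ∃ κ : ℝ, 0 < κ ∧ AlmostAll η fun T H t =>
        κ * (H * Real.log T) ≤ (N χ T t (t + H) α β : ℝ)) ∧
    -- all windows, explicitly
    (∀ h r ε : ℝ, 0 < h → 2 * h ≤ 1 + η → 0 < r → h * r ≤ 9 / 10 → 0 < ε →
      ∃ κ : ℝ, 0 < κ ∧ AlmostAll η fun T H t =>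
        ∀ α : ℝ, 0 ≤ α → α ≤ κ * (H * Real.log T) →
          (2 * (2 - c h) - 1 / r - ε) * (H / (2 * Real.pi) * Real.log T) ≤
            (N χ T t (t + H) α (α + 2 * r) : ℝ)) ∧
    -- all windows of length at least `B`
    (∀ h B : ℝ, 0 < h → 2 * h ≤ 1 + η →
      (c h + 5 / 9 * h < 2 ∧ 1 < B * (2 - c h)) ∨ (c h + 0.67121 * h < 2 ∧ 1.3995 < B * h) →
      ∃ κ₁ : ℝ, 0 < κ₁ ∧ ∃ κ₂ : ℝ, 0 < κ₂ ∧ AlmostAll η fun T H t =>
        ∀ α β : ℝ, 0 ≤ α → β ≤ κ₁ * (H * Real.log T) → B ≤ β - α →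
          κ₂ * ((β - α) * (H * Real.log T)) ≤ (N χ T t (t + H) α β : ℝ)) ∧
    -- two examples
    (1 / 8 ≤ η → ∃ α β κ : ℝ, 0 < α ∧ α < β ∧ 0 < κ ∧ AlmostAll η fun T H t =>
        κ * (H * Real.log T) ≤ (N χ T t (t + H) α β : ℝ)) ∧
    (1 / 2 ≤ η → ∃ κ₁ : ℝ, 0 < κ₁ ∧ ∃ κ₂ : ℝ, 0 < κ₂ ∧ AlmostAll η fun T H t =>
        ∀ α β : ℝ, 0 ≤ α → β ≤ κ₁ * (H * Real.log T) → 12 / 5 ≤ β - α →
          κ₂ * ((β - α) * (H * Real.log T)) ≤ (N χ T t (t + H) α β : ℝ)) := by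
  have hF := H370.good_dirichlet χ hχ
  have hB := Pool.Agent.Y796.PA.bz_prim χ hχ
  have hwin : ∀ h B : ℝ, 0 < h → 2 * h ≤ 1 + η →
      (c h + 5 / 9 * h < 2 ∧ 1 < B * (2 - c h)) ∨ (c h + 0.67121 * h < 2 ∧ 1.3995 < B * h) →
      ∃ κ₁ : ℝ, 0 < κ₁ ∧ ∃ κ₂ : ℝ, 0 < κ₂ ∧ AlmostAll η fun T H t =>
        ∀ α β : ℝ, 0 ≤ α → β ≤ κ₁ * (H * Real.log T) → B ≤ β - α →
          κ₂ * ((β - α) * (H * Real.log T)) ≤ (N χ T t (t + H) α β : ℝ) := by
    intro h B hh hh1 hcase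
    simp only [N_eq, AlmostAll_eq]
    rw [c_eq hh] at hcase
    rcases hcase with ⟨h1, h2⟩ | ⟨h1, h2⟩
    · exact Pool.Agent.Y796.PA.win4_aa hF hB hη0 hη1 hh hh1 h1 h2
    · exact Pool.Agent.Y796.PA.win_aa hF hB Pool.Agent.W201.tier1 hη0 hη1 hh hh1
        (by norm_num at h1 ⊢; linarith) h2
  have hpos : ∀ h β : ℝ, 0 < h → 2 * h ≤ 1 + η → c h < 2 → 1 / (2 - c h) < β →
      ∃ α : ℝ, 0 < α ∧ α < β ∧ ∃ κ : ℝ, 0 < κ ∧ AlmostAll η fun T H t =>
        κ * (H * Real.log T) ≤ (N χ T t (t + H) α β : ℝ) := by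
    intro h β hh hh1 hc hβ
    have hlow := c_lower hh
    simp only [N_eq, AlmostAll_eq]
    obtain ⟨α, hα, hα1, κ, hκ, hm⟩ := Pool.Agent.Y796.PA.near_pos hF hB hη0 hη1 hh hh1
      (c_eq hh ▸ hc) (c_eq hh ▸ hβ)
    refine ⟨α, hα, ?_, κ, hκ, hm⟩
    have h1 : α ≤ 1 / (3 * h) := by
      rw [le_div_iff₀ (by positivity)]
      linarith
    have h2 : 1 / (3 * h) ≤ 1 / (2 - c h) :=
      one_div_le_one_div_of_le (by linarith) (by linarith)
    linarith
  refine ⟨?_, hpos, ?_, hwin, ?_, ?_⟩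
  · intro h r α β ε hh hh1 hr0 hr hα hβ hε
    simp only [N_eq, AlmostAll_eq, p_eq hh]
    exact Pool.Agent.Y796.PA.near_aa hF hB hη0 hη1 hh hh1 hr0 hr hα hβ hε
  · intro h r ε hh hh1 hr hrh hε
    simp only [N_eq, AlmostAll_eq, c_eq hh]
    exact Pool.Agent.Y796.PA.win3_aa hF hB hη0 hη1 hh hh1 hr hrh hε
  · intro h8
    have hc := c_num.1
    obtain ⟨α, hα, hαβ, κ, hκ, h⟩ := hpos (9 / 16) (1 / (2 - c (9 / 16)) + 1) (by norm_num)
      (by linarith) hc (by linarith)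
    exact ⟨α, _, κ, hα, hαβ, hκ, h⟩
  · intro h2
    exact hwin (3 / 4) (12 / 5) (by norm_num) (by linarith) (Or.inl c_num.2)

end Pool.Agent.Results.MP_8958e8_nt.PairsAlmostAllIntervals
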